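import Pool.Agent.Helper11.PC.Defs

/-!
# Packet NEU of project PC (`MP_1f931d_al`): B. H. Neumann's lemma
-/

namespace Pool.Agent.Helper83.PC

universe u

section

set_option linter.unusedSectionVars false

variable {G : Type u} [Group G] [LinearOrder G] [MulLeftStrictMono G] [MulRightStrictMono G]

theorem one_lt_prod_of_ne_nil : ∀ (l : List G), (∀ x ∈ l, 1 < x) → l ≠ [] → 1 < l.prod := by
  intro l
  induction l with
  | nil => intro _ h; exact absurd rfl h
  | cons a l ih =>
    intro h _
    rw [List.prod_cons]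
    have ha : 1 < a := h a List.mem_cons_self
    rcases eq_or_ne l [] with rfl | hl
    · simpa using ha
    · have h1 : 1 < l.prod := ih (fun x hx => h x (List.mem_cons_of_mem _ hx)) hl
      calc (1 : G) < a := ha
        _ = a * 1 := (mul_one a).symm
        _ < a * l.prod := mul_lt_mul_right h1 a

theorem prod_le_of_sublist (l l' : List G) (h : List.SublistForall₂ (· ≤ ·) l l') :
    (∀ x ∈ l', 1 < x) → l.prod ≤ l'.prod ∧ (l.prod = l'.prod → l = l') := by
  induction h with
  | nil =>
    rename_i l'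
    intro h1
    rcases eq_or_ne l' [] with rfl | hl
    · exact ⟨le_rfl, fun _ => rfl⟩
    · have := one_lt_prod_of_ne_nil l' h1 hl
      rw [List.prod_nil]
      exact ⟨this.le, fun h => absurd h this.ne⟩
  | cons hab _ ih =>
    rename_i a b l l' _
    intro h1
    obtain ⟨h2, h3⟩ := ih (fun x hx => h1 x (List.mem_cons_of_mem _ hx))
    rw [List.prod_cons, List.prod_cons]
    haveI := mulLeftMono_of_mulLeftStrictMono G
    haveI := mulRightMono_of_mulRightStrictMono G
    have h4 : a * l.prod ≤ a * l'.prod := mul_le_mul_right h2 a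
    have h5 : a * l'.prod ≤ b * l'.prod := mul_le_mul_left hab l'.prod
    refine ⟨h4.trans h5, fun h => ?_⟩
    have h6 : a * l'.prod = b * l'.prod := le_antisymm h5 (h ▸ h4)
    have h7 : a = b := mul_right_cancel h6
    subst h7
    rw [h3 (mul_left_cancel h)]
  | cons_right _ ih =>
    rename_i b l l' _
    intro h1
    obtain ⟨h2, h3⟩ := ih (fun x hx => h1 x (List.mem_cons_of_mem _ hx))
    have hb : 1 < b := h1 b List.mem_cons_self
    have h4 : l.prod < (b :: l').prod := by
      rw [List.prod_cons]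
      calc l.prod ≤ l'.prod := h2
        _ = 1 * l'.prod := (one_mul _).symm
        _ < b * l'.prod := mul_lt_mul_left hb l'.prod
    exact ⟨h4.le, fun h => absurd h h4.ne⟩

end

theorem neu {G : Type u} [Group G] [LinearOrder G] [MulLeftStrictMono G] [MulRightStrictMono G]
    {S : Set G} (hS : S.IsPWO) (h1 : ∀ x ∈ S, 1 < x) :
    {x : G | ∃ l : List G, (∀ z ∈ l, z ∈ S) ∧ l.prod = x}.IsPWO ∧
      ∀ x : G, {l : List G | (∀ z ∈ l, z ∈ S) ∧ l.prod = x}.Finite := by
  have hp : {l : List G | ∀ x, x ∈ l → x ∈ S}.PartiallyWellOrderedOn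
      (List.SublistForall₂ (· ≤ ·)) :=
    Set.PartiallyWellOrderedOn.partiallyWellOrderedOn_sublistForall₂ (· ≤ ·) hS
  constructor
  · have h2 := hp.image_of_monotone_on (r' := (· ≤ ·)) (f := List.prod)
      (fun l _ l' hl' h => (prod_le_of_sublist l l' h (fun x hx => h1 x (hl' x hx))).1)
    have h3 : {x : G | ∃ l : List G, (∀ z ∈ l, z ∈ S) ∧ l.prod = x} =
        List.prod '' {l : List G | ∀ x, x ∈ l → x ∈ S} := rfl
    rw [h3]
    exact h2
  · intro x
    by_contra hinf
    have hinf' : {l : List G | (∀ z ∈ l, z ∈ S) ∧ l.prod = x}.Infinite := hinf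
    obtain ⟨m, n, hmn, h⟩ := hp.exists_lt
      (f := fun n => ((hinf'.natEmbedding _ n : _) : List G))
      (fun n => (hinf'.natEmbedding _ n).2.1)
    have h4 := (prod_le_of_sublist _ _ h
      (fun y hy => h1 y ((hinf'.natEmbedding _ n).2.1 y hy))).2
      (by rw [(hinf'.natEmbedding _ m).2.2, (hinf'.natEmbedding _ n).2.2])
    have h5 := (hinf'.natEmbedding _).injective (Subtype.ext h4)
    omega

end Pool.Agent.Helper83.PC
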